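import Pool.Agent.Lib.GT32.Bridge
import Pool.Agent.Lib.MP_9d820d_co.Reduce
import Pool.Agent.Lib.MP_9d820d_co.G.AG
import Pool.Agent.Lib.MP_9d820d_co.Inn.IG

/-! Congruent disks with a line transversal for any three have a line transversal after
inflation by the golden ratio. -/

namespace Pool.Agent.Results.MP_9d820d_co.Disks

open Metric Pointwise

theorem result (r : ℝ) (hr : 0 < r) (X : Finset (EuclideanSpace ℝ (Fin 2)))
    (h : ∀ T ⊆ X, T.card = 3 → ∃ l : AffineSubspace ℝ (EuclideanSpace ℝ (Fin 2)),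
      Module.finrank ℝ l.direction = 1 ∧
        ∀ x ∈ T, ((x +ᵥ closedBall (0 : EuclideanSpace ℝ (Fin 2)) r) ∩ l).Nonempty) :
    ∃ l : AffineSubspace ℝ (EuclideanSpace ℝ (Fin 2)), Module.finrank ℝ l.direction = 1 ∧
      ∀ x ∈ X, ((x +ᵥ Real.goldenRatio • closedBall (0 : EuclideanSpace ℝ (Fin 2)) r) ∩
        l).Nonempty :=
  Pool.Agent.Lib.GT32.bridge
    (Pool.Agent.Lib.MP_9d820d_co.reduce fun X x1 y1 x4 y4 al be ga h =>
      Pool.Agent.Lib.MP_9d820d_co.Fast.A.G_0 (P := ⟨X, x1, y1, x4, y4, al, be, ga⟩) h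
        (Pool.Agent.Lib.MP_9d820d_co.Inn.notLoc (P := ⟨X, x1, y1, x4, y4, al, be, ga⟩) h))
    r hr X h

end Pool.Agent.Results.MP_9d820d_co.Disks
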